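import Pool.Agent.U84.AWQ.Stm
import Pool.Agent.R456.CL.Base3

/-!
# Project AWQ, package STEP: one step of the descent
-/

set_option autoImplicit false

namespace Pool.Agent.U450.AWQ

open Pool.Agent.R456.CL Pool.Agent.U84.AWQ

universe u

section aux

variable {A : Type u} [CStarAlgebra A]

theorem pj_mul_cp {z p : A} (hz : CP z) (hp : PJ p) : PJ (z * p) := by
  refine ⟨?_, ?_⟩
  · unfold IsIdempotentElem
    calc z * p * (z * p) = z * (p * z) * p := by simp only [mul_assoc]
      _ = z * (z * p) * p := by rw [hz.2 p]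
      _ = (z * z) * (p * p) := by simp only [mul_assoc]
      _ = z * p := by rw [PJ.mul_self hz.1, PJ.mul_self hp]
  · unfold IsSelfAdjoint
    rw [star_mul, PJ.star hz.1, PJ.star hp, hz.2 p]

theorem cp_mul {a b : A} (ha : CP a) (hb : CP b) : CP (a * b) := by
  refine ⟨pj_mul_cp ha hb.1, fun x => ?_⟩
  rw [mul_assoc, hb.2 x, ← mul_assoc, ha.2 x, mul_assoc]

theorem pi_mul_cp {z g : A} (hz : CP z) (hg : PI g) : PI (z * g) := by
  refine ⟨pj_mul_cp hz hg.1, fun w hw h => ?_⟩
  rw [← mul_assoc] at h ⊢
  exact hg.2 _ (cp_mul hw hz) h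

theorem not_infin_zero : ¬ Infin (0 : A) := by
  rintro ⟨v, -, h2, h3⟩
  rw [mul_zero] at h2
  exact h3 h2.symm

theorem cb_of_norm (hCB : PCB A) {r T : A} {c : ℂ} (hr : PJ r)
    (h : ‖r * (T - c • (1 : A)) * r‖ ≤ 1 / 4) : CB r T := hCB.1 r T c hr h

theorem sub_trans_center {z p q k : A} (hz : CP z) (hp : PJ p) (hq : PJ q) (hk : PJ k)
    (h1 : Sub p (z * q)) (h2 : Sub q k) : Sub p (z * k) := by
  obtain ⟨v, hv1, hv2⟩ := h1
  obtain ⟨u, hu1, hu2⟩ := h2
  have hzq : PJ (z * q) := pj_mul_cp hz hq
  -- `(z * q) * v = v`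
  have hvl : v * star v * v = v := pi_left hp hv1 rfl
  have hl : PJ (v * star v) := pi_final hp hv1
  have h3 : z * q * (v * star v) = v * star v := Le.rev hl hzq hv2
  have h4 : z * q * v = v := by
    calc z * q * v = z * q * (v * star v * v) := by rw [hvl]
      _ = (z * q * (v * star v)) * v := by simp only [mul_assoc]
      _ = v := by rw [h3, hvl]
  have h5 : q * v = v := by
    calc q * v = q * (z * q * v) := by rw [h4]
      _ = (q * z) * (q * v) := by simp only [mul_assoc]
      _ = z * (q * q) * v := by rw [← hz.2 q]; simp only [mul_assoc]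
      _ = v := by rw [PJ.mul_self hq, h4]
  have h6 : z * v = v := by
    calc z * v = z * (z * q * v) := by rw [h4]
      _ = (z * z) * q * v := by simp only [mul_assoc]
      _ = v := by rw [PJ.mul_self hz.1, h4]
  refine ⟨u * v, ?_, ?_⟩
  · calc star (u * v) * (u * v) = star v * ((star u * u) * v) := by
          rw [star_mul]; simp only [mul_assoc]
      _ = p := by rw [hu1, h5, hv1]
  · -- final projection below `z * k`
    have hul : PJ (u * star u) := pi_final hq hu1
    have h7 : k * (u * star u) = u * star u := Le.rev hul hk hu2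
    have h8 : k * u = u := by
      have hus : u * star u * u = u := pi_left hq hu1 rfl
      calc k * u = k * (u * star u * u) := by rw [hus]
        _ = (k * (u * star u)) * u := by simp only [mul_assoc]
        _ = u := by rw [h7, hus]
    have h9 : z * k * (u * v) = u * v := by
      calc z * k * (u * v) = z * (k * u) * v := by simp only [mul_assoc]
        _ = (z * u) * v := by rw [h8]
        _ = u * (z * v) := by rw [hz.2 u, mul_assoc]
        _ = u * v := by rw [h6]
    have hzk : PJ (z * k) := pj_mul_cp hz hk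
    have h10 : star (u * v) * (z * k) = star (u * v) := star_absorb_left hzk h9
    rw [mul_assoc, h10]

end aux

theorem t_STEP : S_STEP.{u} := by
  intro A _ hCB hMain hHull T z g hz hz0 hg hgz hTg hfull hCBzg
  have hzp : PJ z := hz.1
  have hgp : PJ g := hg.1
  have hgg : g * g = g := PJ.mul_self hgp
  have hgz' : g * z = g := hgz
  have hzg : z * g = g := by rw [hz.2, hgz']
  have hg0 : g ≠ 0 := by
    have h1 := hfull z hz (PJ.mul_self hzp) hz0
    rwa [hzg] at h1
  obtain ⟨z1, hz1, hG0, hAB⟩ := hMain g (g * T) hg hg0 (by rw [← mul_assoc, hgg])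
    (by rw [mul_assoc, hTg, ← mul_assoc, hgg])
  set G : A := z1 * g with hGdef
  set Z : A := z1 * z with hZdef
  have hZ : CP Z := cp_mul hz1 hz
  clear_value G Z
  have hz11 : z1 * z1 = z1 := PJ.mul_self hz1.1
  have hzz : z * z = z := PJ.mul_self hzp
  have hGPI : PI G := by rw [hGdef]; exact pi_mul_cp hz1 hg
  have hGp : PJ G := hGPI.1
  have hTG : T * G = G * T := by
    rw [hGdef]
    calc T * (z1 * g) = (T * z1) * g := by rw [mul_assoc]
      _ = z1 * (T * g) := by rw [← hz1.2 T, mul_assoc]
      _ = z1 * g * T := by rw [hTg, mul_assoc]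
  have hZg : Z * g = G := by rw [hZdef, mul_assoc, hzg, hGdef]
  have hGG : G * G = G := PJ.mul_self hGp
  have hGg : G * g = G := by rw [hGdef, mul_assoc, hgg]
  have hGz : G * z = G := by rw [hGdef, mul_assoc, hgz']
  have hGz1 : G * z1 = G := by
    calc G * z1 = z1 * G := (hz1.2 G).symm
      _ = (z1 * z1) * g := by rw [hGdef, mul_assoc]
      _ = G := by rw [hz11, hGdef]
  have hGZ : G * Z = G := by rw [hZdef, ← mul_assoc, hGz1, hGz]
  have hZZ : Z * Z = Z := PJ.mul_self hZ.1
  have hZz : Z * z = Z := by rw [hZdef, mul_assoc, hzz]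
  have hZ0 : Z ≠ 0 := by
    intro h
    apply hG0
    rw [← hZg, h, zero_mul]
  have hzgp : PJ (z - g) := pj_sub hgp hzp hgz'
  have hCBZG : CB (Z - G) T := by
    have h1 := hCB.2.1 (z - g) T z1 hz1 hzgp hCBzg
    rw [mul_sub, ← hGdef, ← hZdef] at h1
    exact h1
  rcases hAB with hA | ⟨k, c, hk, hkG, hSmall, hn⟩
  · -- alternative A
    refine ⟨Z, hZ, hZ0, hZz, Or.inl ⟨G, hGPI, hGZ, hTG, hCBZG, ?_⟩⟩
    rw [← mul_assoc, ← hGdef] at hA
    exact hA
  · have hkG' : k * G = k := hkG
    have hGk : G * k = k := Le.rev hk hGp hkG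
    have hkg : k * g = k := by
      calc k * g = k * G * g := by rw [hkG']
        _ = k * (G * g) := by rw [mul_assoc]
        _ = k := by rw [hGg, hkG']
    have hkz1 : k * z1 = k := by
      calc k * z1 = k * G * z1 := by rw [hkG']
        _ = k * (G * z1) := by rw [mul_assoc]
        _ = k := by rw [hGz1, hkG']
    have hkz : k * z = k := by
      calc k * z = k * G * z := by rw [hkG']
        _ = k * (G * z) := by rw [mul_assoc]
        _ = k := by rw [hGz, hkG']
    have hr : PJ (G - k) := pj_sub hk hGp hkG
    -- the norm bound for subprojections of `G - k`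
    have hrg : (G - k) * g = G - k := by rw [sub_mul, hGg, hkg]
    have hbase : ‖(G - k) * (T - c • (1 : A)) * (G - k)‖ ≤ 1 / 4 := by
      have h1 : (G - k) * (T - c • (1 : A)) = (G - k) * (g * T - c • g) := by
        rw [mul_sub, mul_sub, mul_smul_comm, mul_smul_comm, ← mul_assoc, hrg, mul_one]
      rw [h1]; exact hn
    have hCBr : CB (G - k) T := cb_of_norm hCB hr hbase
    by_cases hPI : PI k
    · by_cases hw : ∃ w : A, CP w ∧ w * Z = w ∧ w ≠ 0 ∧ w * k = 0
      · -- `k` vanishes over `w`
        obtain ⟨w, hwc, hwZ, hw0, hwk⟩ := hw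
        have hwz : w * z = w := by
          calc w * z = w * Z * z := by rw [hwZ]
            _ = w * (Z * z) := by rw [mul_assoc]
            _ = w := by rw [hZz, hwZ]
        have hwG : w * G = w * g := by
          calc w * G = w * (Z * g) := by rw [hZg]
            _ = (w * Z) * g := by rw [mul_assoc]
            _ = w * g := by rw [hwZ]
        refine ⟨w, hwc, hw0, hwz, Or.inr (Or.inl ⟨w * g, 0, pj_mul_cp hwc hgp, ?_, ?_, ?_, pj_zero,
          ?_, not_infin_zero, ?_⟩)⟩
        · show w * g * w = w * g
          rw [← hwc.2 (w * g), ← mul_assoc, PJ.mul_self hwc.1]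
        · calc T * (w * g) = (T * w) * g := by rw [mul_assoc]
            _ = w * (T * g) := by rw [← hwc.2 T, mul_assoc]
            _ = w * g * T := by rw [hTg, mul_assoc]
        · have h1 := hCB.2.1 (z - g) T w hwc hzgp hCBzg
          rwa [mul_sub, hwz] at h1
        · show (0 : A) * (w * g) = 0
          rw [zero_mul]
        · have h1 := hCB.2.1 (G - k) T w hwc hr hCBr
          rw [mul_sub, hwk, hwG] at h1
          exact h1
      · -- the hull
        obtain ⟨h, hhPI, hhG, hkh, hTh, hhk⟩ := hHull T G k hGp hTG.symm hPI hkG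
        have hhG' : h * G = h := hhG
        have hkh' : k * h = k := hkh
        have hhp : PJ h := hhPI.1
        have hGh : G * h = h := Le.rev hhp hGp hhG
        have hhk' : h * k = k := Le.rev hk hhp hkh
        refine ⟨Z, hZ, hZ0, hZz, Or.inr (Or.inr ⟨h, hhPI, ?_, hTh, ?_, ?_, ?_⟩)⟩
        · show h * (Z * g) = h
          rw [hZg, hhG']
        · intro w hwc hwZ hw0 hwh
          refine hw ⟨w, hwc, hwZ, hw0, ?_⟩
          calc w * k = w * (h * k) := by rw [hhk']
            _ = (w * h) * k := by rw [mul_assoc]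
            _ = 0 := by rw [hwh, zero_mul]
        · have hs : PJ (G - h) := pj_sub hhp hGp hhG
          have hZGp : PJ (Z - G) := pj_sub hGp hZ.1 hGZ
          have h1 : (Z - G) * (G - h) = 0 := by
            have e1 : Z * G = G := by rw [hZ.2 G, hGZ]
            have e2 : Z * h = h := by
              calc Z * h = Z * (G * h) := by rw [hGh]
                _ = (Z * G) * h := by rw [mul_assoc]
                _ = h := by rw [e1, hGh]
            rw [sub_mul, mul_sub, mul_sub, e1, e2, hGG, hGh, sub_self]
          have h2 : (Z - G) * T = T * (Z - G) := by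
            rw [sub_mul, mul_sub, hTG, hZ.2 T]
          have h3 : (G - h) * T = T * (G - h) := by
            rw [sub_mul, mul_sub, hTG, hTh]
          have h4 : CB (G - h) T := by
            refine cb_of_norm hCB (c := c) hs ?_
            have e1 : (G - h) * (G - k) = G - h := by
              rw [sub_mul, mul_sub, mul_sub, hGG, hGk, hhG', hhk']; abel
            have e2 : (G - k) * (G - h) = G - h := by
              rw [sub_mul, mul_sub, mul_sub, hGG, hGh, hkG', hkh']; abel
            have e3 : (G - h) * (T - c • (1 : A)) * (G - h) =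
                (G - h) * ((G - k) * (T - c • (1 : A)) * (G - k)) * (G - h) := by
              calc (G - h) * (T - c • (1 : A)) * (G - h)
                  = ((G - h) * (G - k)) * (T - c • (1 : A)) * ((G - k) * (G - h)) := by
                    rw [e1, e2]
                _ = _ := by simp only [mul_assoc]
            rw [e3]
            calc ‖(G - h) * ((G - k) * (T - c • (1 : A)) * (G - k)) * (G - h)‖
                ≤ ‖(G - h) * ((G - k) * (T - c • (1 : A)) * (G - k))‖ * ‖G - h‖ := norm_mul_le _ _
              _ ≤ (‖G - h‖ * ‖(G - k) * (T - c • (1 : A)) * (G - k)‖) * ‖G - h‖ := by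
                  gcongr; exact norm_mul_le _ _
              _ ≤ (1 * ‖(G - k) * (T - c • (1 : A)) * (G - k)‖) * 1 := by
                  have hn1 : ‖G - h‖ ≤ 1 := pj_norm_le hs
                  gcongr
              _ ≤ 1 / 4 := by rw [one_mul, mul_one]; exact hbase
          have h5 := hCB.2.2 (Z - G) (G - h) T hZGp hs h1 h2 h3 hCBZG h4
          have h6 : Z - G + (G - h) = Z - h := by abel
          rwa [h6] at h5
        · intro w hwc hwg hsub
          rw [hZg] at hwg hsub
          exact hSmall w hwc hwg
            (sub_trans_center hwc (pj_mul_cp hwc hGp) hhp hk hsub hhk)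
    · -- `k` is not properly infinite
      have hex : ∃ w : A, CP w ∧ w * k ≠ 0 ∧ ¬ Infin (w * k) := by
        by_contra hcon
        push Not at hcon
        exact hPI ⟨hk, hcon⟩
      obtain ⟨w, hwc, hwk0, hwk⟩ := hex
      have hwZc : CP (w * Z) := cp_mul hwc hZ
      have hZk : Z * k = k := by
        calc Z * k = k * Z := hZ.2 k
          _ = (k * z1) * z := by rw [hZdef, mul_assoc]
          _ = k := by rw [hkz1, hkz]
      have hwG : PJ (w * G) := pj_mul_cp hwc hGp
      refine ⟨w * Z, hwZc, ?_, ?_, Or.inr (Or.inl ⟨w * G, w * k, hwG, ?_, ?_, ?_,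
        pj_mul_cp hwc hk, ?_, hwk, ?_⟩)⟩
      · intro h0
        apply hwk0
        calc w * k = w * (Z * k) := by rw [hZk]
          _ = (w * Z) * k := by rw [mul_assoc]
          _ = 0 := by rw [h0, zero_mul]
      · rw [mul_assoc, hZz]
      · show w * G * (w * Z) = w * G
        calc w * G * (w * Z) = w * (G * w) * Z := by simp only [mul_assoc]
          _ = w * (w * G) * Z := by rw [hwc.2 G]
          _ = (w * w) * (G * Z) := by simp only [mul_assoc]
          _ = w * G := by rw [PJ.mul_self hwc.1, hGZ]
      · calc T * (w * G) = (T * w) * G := by rw [mul_assoc]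
          _ = w * (T * G) := by rw [← hwc.2 T, mul_assoc]
          _ = w * G * T := by rw [hTG, mul_assoc]
      · have hZGp : PJ (Z - G) := pj_sub hGp hZ.1 hGZ
        have h1 := hCB.2.1 (Z - G) T w hwc hZGp hCBZG
        rwa [mul_sub] at h1
      · show w * k * (w * G) = w * k
        calc w * k * (w * G) = w * (k * w) * G := by simp only [mul_assoc]
          _ = w * (w * k) * G := by rw [hwc.2 k]
          _ = (w * w) * (k * G) := by simp only [mul_assoc]
          _ = w * k := by rw [PJ.mul_self hwc.1, hkG']
      · have h1 := hCB.2.1 (G - k) T w hwc hr hCBr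
        rwa [mul_sub] at h1

end Pool.Agent.U450.AWQ
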